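import Pool.Agent.TH87.BD.Main

/-!
# MP_5f065d_co: graphs without short cycles

Let `G` be the union of a forest `F₁` and a forest `F₂` whose components have diameter at most `d`.
If every edge of `F₁` which joins two vertices of one component of `F₂` joins two adjacent vertices
of `F₂` or two vertices at distance more than `⌈d / 2⌉` in `F₂`, and in particular if `G` has no
cycle of length at most `⌈d / 2⌉ + 1`, then `G` has a partition into two forests whose components
have diameter at most `2 * 4 ^ (⌈d / 2⌉ + 1)`.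

For `d ≤ 2` there is no condition; for `d = 3` and `d = 4` the second condition says that `G` has
no triangle.
-/

set_option autoImplicit false

namespace Pool.Agent.Results.MP_5f065d_co.FewShortCycles

theorem result (d : ℕ) (V : Type) [Fintype V] (G F₁ F₂ : SimpleGraph V) (hF₁ : F₁.IsAcyclic)
    (hF₂ : F₂.IsAcyclic) (hd : ∀ u v : V, F₂.Reachable u v → F₂.dist u v ≤ d)
    (hG : G = F₁ ⊔ F₂)
    (h : (∀ u v : V, F₁.Adj u v → F₂.Reachable u v → F₂.Adj u v ∨ (d + 1) / 2 < F₂.dist u v) ∨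
      (∀ (v : V) (c : G.Walk v v), c.IsCycle → (d + 1) / 2 + 1 < c.length)) :
    ∃ H₁ H₂ : SimpleGraph V, H₁ ⊔ H₂ = G ∧ Disjoint H₁ H₂ ∧ H₁.IsAcyclic ∧ H₂.IsAcyclic ∧
      (∀ u v : V, H₁.Reachable u v → H₁.dist u v ≤ 2 * 4 ^ ((d + 1) / 2 + 1)) ∧
      (∀ u v : V, H₂.Reachable u v → H₂.dist u v ≤ 2 * 4 ^ ((d + 1) / 2 + 1)) := by
  subst hG
  refine Pool.Agent.TH87.BD.main_dist d F₁ F₂ hF₁ hF₂ hd ?_
  rcases h with h | h
  · exact h
  · exact Pool.Agent.TH87.BD.dist_of_girth _ F₁ F₂ h

end Pool.Agent.Results.MP_5f065d_co.FewShortCycles
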